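import Mathlib
import Pool.Agent.Helper479.Bond.VK

set_option autoImplicit false
open Set Topology

namespace Pool.Agent.U892.K5

/-- the vertex `e_a` -/
def vtx (a : Fin 5) : Fin 5 → ℝ := Pi.single a 1

/-- the complete graph on five vertices, one-skeleton of the standard simplex -/
def K5set : Set (Fin 5 → ℝ) := ⋃ p : Fin 5 × Fin 5, segment ℝ (vtx p.1) (vtx p.2)

lemma vtx_same (a : Fin 5) : vtx a a = 1 := by simp [vtx]
lemma vtx_ne {a b : Fin 5} (h : b ≠ a) : vtx a b = 0 := by simp [vtx, h]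

lemma isCompact_seg (x y : Fin 5 → ℝ) : IsCompact (segment ℝ x y) := by
  rw [segment_eq_image_lineMap]
  exact isCompact_Icc.image AffineMap.lineMap_continuous

lemma isCompact_K5 : IsCompact K5set := isCompact_iUnion fun _ => isCompact_seg _ _

lemma vtx_mem (a : Fin 5) : vtx a ∈ K5set :=
  mem_iUnion.2 ⟨(a, a), left_mem_segment ℝ _ _⟩

lemma seg_sub (a b : Fin 5) : segment ℝ (vtx a) (vtx b) ⊆ K5set := fun _ hx =>
  mem_iUnion.2 ⟨(a, b), hx⟩

lemma isConnected_K5 : IsConnected K5set := by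
  refine ⟨⟨_, vtx_mem 0⟩, ?_⟩
  refine isPreconnected_of_forall (vtx 0) ?_
  intro y hy
  obtain ⟨⟨a, b⟩, hab⟩ := mem_iUnion.1 hy
  refine ⟨segment ℝ (vtx 0) (vtx a) ∪ segment ℝ (vtx a) (vtx b), ?_, ?_, ?_, ?_⟩
  · exact union_subset (seg_sub _ _) (seg_sub _ _)
  · exact Or.inl (left_mem_segment ℝ _ _)
  · exact Or.inr hab
  · exact IsPreconnected.union (vtx a) (right_mem_segment ℝ _ _) (left_mem_segment ℝ _ _)
      (convex_segment _ _).isPreconnected (convex_segment _ _).isPreconnected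

abbrev Y : Type := ↥K5set

instance : CompactSpace Y := isCompact_iff_compactSpace.1 isCompact_K5
instance : ConnectedSpace Y := isConnected_iff_connectedSpace.1 isConnected_K5

instance : Nontrivial Y := by
  refine ⟨⟨⟨vtx 0, vtx_mem 0⟩, ⟨vtx 1, vtx_mem 1⟩, ?_⟩⟩
  intro h
  have h1 := congrArg (fun z : Y => z.1 0) h
  simp [vtx] at h1

/-- parametrisation -/
def param (q : (Fin 5 × Fin 5) × ↥(Icc (0:ℝ) 1)) : Y :=
  ⟨AffineMap.lineMap (vtx q.1.1) (vtx q.1.2) (q.2 : ℝ), seg_sub q.1.1 q.1.2 (by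
    rw [segment_eq_image_lineMap]; exact ⟨_, q.2.2, rfl⟩)⟩

lemma param_continuous : Continuous param := by
  refine Continuous.subtype_mk ?_ _
  have h : Continuous fun q : (Fin 5 × Fin 5) × ↥(Icc (0:ℝ) 1) =>
      (q.2 : ℝ) • (vtx q.1.2 - vtx q.1.1) + vtx q.1.1 := by
    have h1 : Continuous (fun q : Fin 5 × Fin 5 => vtx q.1) := continuous_of_discreteTopology
    have h2 : Continuous (fun q : Fin 5 × Fin 5 => vtx q.2) := continuous_of_discreteTopology
    have h3 : Continuous fun q : (Fin 5 × Fin 5) × ↥(Icc (0:ℝ) 1) => vtx q.1.1 :=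
      h1.comp continuous_fst
    have h4 : Continuous fun q : (Fin 5 × Fin 5) × ↥(Icc (0:ℝ) 1) => vtx q.1.2 :=
      h2.comp continuous_fst
    have h5 : Continuous fun q : (Fin 5 × Fin 5) × ↥(Icc (0:ℝ) 1) => (q.2 : ℝ) :=
      continuous_subtype_val.comp continuous_snd
    exact (h5.smul (h4.sub h3)).add h3
  convert h using 2
  rw [AffineMap.lineMap_apply_module']

lemma param_surjective : Function.Surjective param := by
  rintro ⟨y, hy⟩
  obtain ⟨⟨a, b⟩, hab⟩ := mem_iUnion.1 hy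
  simp only at hab
  rw [segment_eq_image_lineMap] at hab
  obtain ⟨t, ht, rfl⟩ := hab
  exact ⟨((a, b), ⟨t, ht⟩), rfl⟩

instance : LocallyConnectedSpace Y := by
  have : LocallyPathConnectedSpace ↥(Icc (0:ℝ) 1) := (convex_Icc (0:ℝ) 1).locallyPathConnectedSpace
  have hq : IsQuotientMap param :=
    (param_continuous.isClosedMap).isQuotientMap param_continuous param_surjective
  exact hq.isCoinducing.locallyConnectedSpace


lemma seg_coord {a b : Fin 5} {z : Fin 5 → ℝ} (hz : z ∈ segment ℝ (vtx a) (vtx b)) :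
    ∃ s : ℝ, 0 ≤ s ∧ s ≤ 1 ∧ z = s • vtx a + (1 - s) • vtx b := by
  obtain ⟨s, t, hs, ht, hst, rfl⟩ := hz
  refine ⟨s, hs, by linarith, ?_⟩
  have : t = 1 - s := by linarith
  rw [this]

/-- a point of the graph with `0 < z c < 1` lies on an edge at `c`. -/
lemma mem_edge {z : Fin 5 → ℝ} (hz : z ∈ K5set) {c : Fin 5} (h0 : 0 < z c) (h1 : z c < 1) :
    ∃ d, d ≠ c ∧ z = z c • vtx c + (1 - z c) • vtx d := by
  obtain ⟨⟨a, b⟩, hab⟩ := mem_iUnion.1 hz
  obtain ⟨s, hs0, hs1, hz⟩ := seg_coord hab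
  simp only at hz
  have hzc : z c = s * vtx a c + (1 - s) * vtx b c := by
    rw [hz]; simp
  by_cases ha : c = a
  · by_cases hb : c = b
    · subst ha; subst hb
      rw [vtx_same] at hzc
      linarith
    · refine ⟨b, fun h => hb h.symm, ?_⟩
      have e : z c = s := by
        rw [hzc, ← ha, vtx_same, vtx_ne hb]; ring
      rw [e, ha]; exact hz
  · by_cases hb : c = b
    · refine ⟨a, fun h => ha h.symm, ?_⟩
      have e : z c = 1 - s := by
        rw [hzc, ← hb, vtx_same, vtx_ne ha]; ring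
      rw [e, hb]
      rw [hz, add_comm]
      congr 2
      ring
    · rw [vtx_ne ha, vtx_ne hb] at hzc
      linarith

/-- any nondegenerate closed connected subset of the graph contains a nonempty open subset. -/
lemma exists_open {L : Set Y} (hcl : IsClosed L) (hconn : IsConnected L) (hnt : L.Nontrivial) :
    ∃ U : Set Y, IsOpen U ∧ U.Nonempty ∧ U ⊆ L := by
  obtain ⟨x, hx, y, hy, hxy⟩ := hnt
  have hne : ∃ c, x.1 c ≠ y.1 c := by
    by_contra h
    push Not at h
    exact hxy (Subtype.ext (funext h))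
  -- WLOG
  obtain ⟨c, x, hx, y, hy, hlt⟩ : ∃ c, ∃ x ∈ L, ∃ y ∈ L, x.1 c < y.1 c := by
    obtain ⟨c, hc⟩ := hne
    rcases lt_or_gt_of_ne hc with h | h
    · exact ⟨c, x, hx, y, hy, h⟩
    · exact ⟨c, y, hy, x, hx, h⟩
  have hcoord : Continuous fun z : Y => z.1 c := (continuous_apply c).comp continuous_subtype_val
  have hnonneg : ∀ z : Y, 0 ≤ z.1 c ∧ z.1 c ≤ 1 := by
    rintro ⟨z, hz⟩
    obtain ⟨⟨a, b⟩, hab⟩ := mem_iUnion.1 hz
    obtain ⟨s, hs0, hs1, hz⟩ := seg_coord hab
    simp only at hz ⊢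
    have hzc : z c = s * vtx a c + (1 - s) * vtx b c := by
      rw [hz]; simp
    have h1 : ∀ e : Fin 5, 0 ≤ vtx e c ∧ vtx e c ≤ 1 := by
      intro e
      by_cases h : c = e
      · subst h; rw [vtx_same]; norm_num
      · rw [vtx_ne h]; norm_num
    rw [hzc]
    constructor
    · nlinarith [(h1 a).1, (h1 b).1]
    · nlinarith [(h1 a).2, (h1 b).2, (h1 a).1, (h1 b).1]
  -- closed sets
  let g : Fin 5 → ℝ → (Fin 5 → ℝ) := fun d τ => τ • vtx c + (1 - τ) • vtx d
  have hg : ∀ d, Continuous (g d) := fun d => by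
    exact (continuous_id.smul continuous_const).add ((continuous_const.sub continuous_id).smul
      continuous_const)
  have hLcl : IsClosed (Subtype.val '' L : Set (Fin 5 → ℝ)) :=
    (hcl.isCompact.image continuous_subtype_val).isClosed
  let F : Option {d : Fin 5 // d ≠ c} → Set ℝ := fun o =>
    match o with
    | none => Iic (x.1 c) ∪ Ici (y.1 c)
    | some d => g d.1 ⁻¹' (Subtype.val '' L)
  have hF : ∀ o, IsClosed (F o) := by
    rintro (_ | d)
    · exact isClosed_Iic.union isClosed_Ici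
    · exact hLcl.preimage (hg d.1)
  have hcover : ⋃ o, F o = univ := by
    rw [eq_univ_iff_forall]
    intro τ
    by_cases h1 : τ ≤ x.1 c
    · exact mem_iUnion.2 ⟨none, Or.inl h1⟩
    by_cases h2 : y.1 c ≤ τ
    · exact mem_iUnion.2 ⟨none, Or.inr h2⟩
    push Not at h1 h2
    obtain ⟨z, hz, hzτ⟩ : ∃ z ∈ L, z.1 c = τ := by
      have := hconn.isPreconnected.intermediate_value hx hy hcoord.continuousOn
      obtain ⟨z, hz, hzz⟩ := this ⟨h1.le, h2.le⟩
      exact ⟨z, hz, hzz⟩
    have h0 : 0 < z.1 c := by rw [hzτ]; exact lt_of_le_of_lt (hnonneg x).1 h1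
    have h1' : z.1 c < 1 := by rw [hzτ]; exact lt_of_lt_of_le h2 (hnonneg y).2
    obtain ⟨d, hd, hzd⟩ := mem_edge z.2 h0 h1'
    refine mem_iUnion.2 ⟨some ⟨d, hd⟩, ?_⟩
    refine ⟨z, hz, ?_⟩
    show z.1 = g d τ
    rw [hzd, hzτ]
  have hdense := dense_iUnion_interior_of_closed hF hcover
  obtain ⟨τ, hτ1, hτ2⟩ := hdense.inter_open_nonempty (Ioo (x.1 c) (y.1 c)) isOpen_Ioo
    (nonempty_Ioo.2 hlt)
  obtain ⟨o, ho⟩ := mem_iUnion.1 hτ2
  rcases o with _ | d
  · exfalso
    rcases interior_subset ho with h | h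
    · exact absurd hτ1.1 (not_lt.2 h)
    · exact absurd hτ1.2 (not_lt.2 h)
  · have hcd : Continuous fun z : Y => z.1 d.1 :=
      (continuous_apply d.1).comp continuous_subtype_val
    refine ⟨(fun z : Y => z.1 c) ⁻¹' (interior (F (some d)) ∩ Ioo (x.1 c) (y.1 c)) ∩
      (fun z : Y => z.1 d.1) ⁻¹' (Ioi 0), ?_, ?_, ?_⟩
    · exact ((isOpen_interior.inter isOpen_Ioo).preimage hcoord).inter (isOpen_Ioi.preimage hcd)
    · have hτ0 : 0 ≤ τ := (hnonneg x).1.trans hτ1.1.le
      have hτ1' : τ < 1 := lt_of_lt_of_le hτ1.2 (hnonneg y).2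
      have hmem : g d.1 τ ∈ K5set := by
        refine seg_sub c d.1 ⟨τ, 1 - τ, hτ0, by linarith, by ring, rfl⟩
      have hc : g d.1 τ c = τ := by
        show (τ • vtx c + (1 - τ) • vtx d.1) c = τ
        simp [vtx_same, vtx_ne (Ne.symm d.2)]
      have hd : g d.1 τ d.1 = 1 - τ := by
        show (τ • vtx c + (1 - τ) • vtx d.1) d.1 = 1 - τ
        simp [vtx_same, vtx_ne d.2]
      refine ⟨⟨g d.1 τ, hmem⟩, ?_, ?_⟩
      · show g d.1 τ c ∈ interior (F (some d)) ∩ Ioo (x.1 c) (y.1 c)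
        rw [hc]; exact ⟨ho, hτ1⟩
      · show 0 < g d.1 τ d.1
        rw [hd]; linarith
    · rintro z ⟨⟨hz1, hz2⟩, hz3⟩
      simp only [mem_preimage] at hz1 hz2 hz3
      have h0 : 0 < z.1 c := lt_of_le_of_lt (hnonneg x).1 hz2.1
      have h1' : z.1 c < 1 := lt_of_lt_of_le hz2.2 (hnonneg y).2
      obtain ⟨e, he, hze⟩ := mem_edge z.2 h0 h1'
      have hed : d.1 = e := by
        by_contra hne
        have : z.1 d.1 = 0 := by
          rw [hze]
          simp [vtx_ne d.2, vtx_ne hne]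
        rw [mem_Ioi, this] at hz3
        exact lt_irrefl _ hz3
      have := interior_subset hz1
      obtain ⟨w, hw, hwz⟩ := this
      have : w = z := by
        apply Subtype.ext
        rw [hwz]
        show z.1 c • vtx c + (1 - z.1 c) • vtx d.1 = z.1
        rw [hed]; exact hze.symm
      rwa [← this]

/-- a `δ`-thickening of a connected set is connected. -/
lemma isConnected_thickening {E : Type*} [SeminormedAddCommGroup E] [NormedSpace ℝ E] {s : Set E}
    (hs : IsConnected s) {δ : ℝ} (hδ : 0 < δ) : IsConnected (Metric.thickening δ s) := by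
  obtain ⟨x, hx⟩ := hs.nonempty
  refine ⟨⟨x, Metric.self_subset_thickening hδ s hx⟩, ?_⟩
  refine isPreconnected_of_forall x ?_
  intro y hy
  obtain ⟨z, hz, hyz⟩ := Metric.mem_thickening_iff.1 hy
  refine ⟨s ∪ Metric.ball z δ, ?_, Or.inl hx, Or.inr hyz, ?_⟩
  · exact union_subset (Metric.self_subset_thickening hδ s) (fun w hw =>
      Metric.mem_thickening_iff.2 ⟨z, hz, hw⟩)
  · exact IsPreconnected.union z hz (Metric.mem_ball_self hδ) hs.isPreconnected
      (convex_ball z δ).isPreconnected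

/-- edge of the graph as a subset of the space -/
def edge (a b : Fin 5) : Set Y := Subtype.val ⁻¹' segment ℝ (vtx a) (vtx b)

def v (a : Fin 5) : Y := ⟨vtx a, vtx_mem a⟩

lemma v_left (a b : Fin 5) : v a ∈ edge a b := left_mem_segment ℝ _ _
lemma v_right (a b : Fin 5) : v b ∈ edge a b := right_mem_segment ℝ _ _

lemma isClosed_edge (a b : Fin 5) : IsClosed (edge a b) :=
  (isCompact_seg _ _).isClosed.preimage continuous_subtype_val

lemma isConnected_edge (a b : Fin 5) : IsConnected (edge a b) := by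
  refine ⟨⟨_, v_left a b⟩, ?_⟩
  refine (IsInducing.subtypeVal.isPreconnected_image).1 ?_
  have : (Subtype.val '' edge a b : Set (Fin 5 → ℝ)) = segment ℝ (vtx a) (vtx b) := by
    unfold edge
    rw [Subtype.image_preimage_coe]
    exact inter_eq_right.2 (seg_sub a b)
  rw [this]
  exact (convex_segment _ _).isPreconnected

lemma disjoint_edge {a b c d : Fin 5} (h1 : a ≠ c) (h2 : a ≠ d) (h3 : b ≠ c) (h4 : b ≠ d) :
    Disjoint (edge a b) (edge c d) := by
  rw [Set.disjoint_left]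
  intro z hz1 hz2
  obtain ⟨s, hs0, hs1, hz⟩ := seg_coord hz1
  obtain ⟨t, ht0, ht1, hz'⟩ := seg_coord hz2
  have e1 : z.1 a + z.1 b = 0 := by
    rw [hz']
    simp [vtx_ne h1, vtx_ne h2, vtx_ne h3, vtx_ne h4]
  by_cases hab : a = b
  · subst hab
    have : z.1 a = 1 := by
      rw [hz]; simp [vtx_same]
    linarith
  · have e2 : z.1 a + z.1 b = 1 := by
      rw [hz]; simp [vtx_same, vtx_ne hab, vtx_ne (Ne.symm hab)]
    linarith

/-- The graph is not a monotone image of a compact plane set. -/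
theorem no_monotone (S : Set (EuclideanSpace ℝ (Fin 2))) (f : ↥S → Y) (hS : IsCompact S)
    (hf : Continuous f) (hsurj : Function.Surjective f)
    (hfib : ∀ y : Y, IsConnected (Subtype.val '' (f ⁻¹' {y}) : Set (EuclideanSpace ℝ (Fin 2)))) :
    False := by
  have : CompactSpace ↥S := isCompact_iff_compactSpace.1 hS
  have hq : IsQuotientMap f := hf.isClosedMap.isQuotientMap hf hsurj
  have hfib' : ∀ y : Y, IsConnected (f ⁻¹' {y}) := by
    intro y
    refine ⟨?_, (IsInducing.subtypeVal.isPreconnected_image).1 (hfib y).isPreconnected⟩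
    obtain ⟨x, hx⟩ := hsurj y
    exact ⟨x, hx⟩
  let K : Fin 5 → Fin 5 → Set (EuclideanSpace ℝ (Fin 2)) := fun a b =>
    Subtype.val '' (f ⁻¹' edge a b)
  have hKc : ∀ a b, IsCompact (K a b) := fun a b =>
    ((isClosed_edge a b).preimage hf).isCompact.image continuous_subtype_val
  have hKconn : ∀ a b, IsConnected (K a b) := fun a b =>
    (hq.isCoinducing.isConnected_preimage_of_isClosed hfib' (isClosed_edge a b)
      (isConnected_edge a b)).image _ continuous_subtype_val.continuousOn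
  have hKd : ∀ a b c d, a ≠ c → a ≠ d → b ≠ c → b ≠ d → Disjoint (K a b) (K c d) := by
    intro a b c d h1 h2 h3 h4
    rw [Set.disjoint_image_iff Subtype.val_injective]
    exact (disjoint_edge h1 h2 h3 h4).preimage f
  choose p hp using fun a : Fin 5 => hsurj (v a)
  -- thickenings
  have hδ : ∀ᶠ δ : ℝ in 𝓝[>] 0, ∀ q : (Fin 5 × Fin 5) × (Fin 5 × Fin 5),
      Disjoint (K q.1.1 q.1.2) (K q.2.1 q.2.2) →
      Disjoint (Metric.thickening δ (K q.1.1 q.1.2)) (Metric.thickening δ (K q.2.1 q.2.2)) := by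
    rw [Filter.eventually_all]
    intro q
    by_cases hd : Disjoint (K q.1.1 q.1.2) (K q.2.1 q.2.2)
    · obtain ⟨δ, hδ0, hδ⟩ := hd.exists_thickenings (hKc _ _) (hKc _ _).isClosed
      have : Ioo (0:ℝ) δ ∈ 𝓝[>] (0:ℝ) := Ioo_mem_nhdsGT hδ0
      filter_upwards [this] with ε hε _
      exact hδ.mono (Metric.thickening_mono hε.2.le _) (Metric.thickening_mono hε.2.le _)
    · exact Filter.Eventually.of_forall fun _ h => absurd h hd
  have hpos : ∀ᶠ δ : ℝ in 𝓝[>] 0, 0 < δ := eventually_mem_nhdsWithin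
  obtain ⟨δ, hδ, hδ0⟩ := (hδ.and hpos).exists
  let T : Fin 5 → Fin 5 → Set (EuclideanSpace ℝ (Fin 2)) := fun a b =>
    Metric.thickening δ (K a b)
  have hT : ∀ a b, IsPathConnected (T a b) := fun a b =>
    (Metric.isOpen_thickening.isConnected_iff_isPathConnected).1
      (isConnected_thickening (hKconn a b) hδ0)
  let e := Complex.orthonormalBasisOneI.repr
  refine Pool.Agent.Helper479.Bond.VK.k5_joined (fun a => e.symm (p a).1)
    (fun a b => e.symm '' T a b) ?_ ?_
  · intro a b _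
    have hpc : IsPathConnected (e.symm '' T a b) := (hT a b).image e.symm.continuous
    refine hpc.joinedIn _ ?_ _ ?_
    · refine mem_image_of_mem _ (Metric.self_subset_thickening hδ0 _ ?_)
      refine ⟨p a, ?_, rfl⟩
      show f (p a) ∈ edge a b
      rw [hp]; exact v_left a b
    · refine mem_image_of_mem _ (Metric.self_subset_thickening hδ0 _ ?_)
      refine ⟨p b, ?_, rfl⟩
      show f (p b) ∈ edge a b
      rw [hp]; exact v_right a b
  · intro a b c d _ _ h1 h2 h3 h4
    show Disjoint (e.symm '' T a b) (e.symm '' T c d)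
    rw [Set.disjoint_image_iff e.symm.injective]
    exact hδ ((a, b), (c, d)) (hKd a b c d h1 h2 h3 h4)

end Pool.Agent.U892.K5
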